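import Mathlib

section
/-!
Finite-state theorem for edge sets of the hypercube, part (1): the group `eMe` of a finite monoid
and the sets `V_b` of values of the words `s t s`, `|t| = b`.
-/
namespace MP53850c.FS

/-- value of a word in a monoid -/
def val {A M : Type*} [Monoid M] (f : A → M) (w : List A) : M := (w.map f).prod

section
variable {A M : Type*} [Monoid M] (f : A → M)

@[simp] lemma val_nil : val f [] = 1 := rfl

@[simp] lemma val_append (u v : List A) : val f (u ++ v) = val f u * val f v := by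
  simp [val]

@[simp] lemma val_cons (a : A) (v : List A) : val f (a :: v) = f a * val f v := by
  simp [val]

lemma val_singleton (a : A) : val f [a] = f a := by simp [val]

end

section idem
variable {M : Type*} [Monoid M] [Finite M]

lemma exists_pow_idem (a : M) : ∃ n : ℕ, 0 < n ∧ a ^ n * a ^ n = a ^ n := by
  obtain ⟨i, j, hij, h⟩ : ∃ i j : ℕ, i < j ∧ a ^ i = a ^ j := by
    obtain ⟨i, j, hne, h⟩ := Finite.exists_ne_map_eq_of_infinite (fun n : ℕ => a ^ n)
    rcases lt_or_gt_of_ne hne with h1 | h1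
    · exact ⟨i, j, h1, h⟩
    · exact ⟨j, i, h1, h.symm⟩
  obtain ⟨p, rfl⟩ : ∃ p, j = i + p := ⟨j - i, by omega⟩
  have hp : 0 < p := by omega
  have h1 : ∀ n, i ≤ n → a ^ n = a ^ (n + p) := by
    intro n hn
    obtain ⟨k, rfl⟩ : ∃ k, n = i + k := ⟨n - i, by omega⟩
    rw [pow_add, h, ← pow_add]
    congr 1
    omega
  have h2 : ∀ k n, i ≤ n → a ^ n = a ^ (n + k * p) := by
    intro k
    induction k with
    | zero => intro n _; simp
    | succ k ih =>
      intro n hn
      rw [ih n hn, h1 (n + k * p) (by omega)]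
      congr 1
      ring
  refine ⟨(i + 1) * p, Nat.mul_pos (Nat.succ_pos _) hp, ?_⟩
  have h3 : i ≤ (i + 1) * p := by nlinarith
  rw [← pow_add]
  exact (h2 (i + 1) ((i + 1) * p) h3).symm

/-- There is an idempotent `e` such that `eMe` is a group. -/
theorem exists_group_idem : ∃ e : M, e * e = e ∧
    ∀ a : M, e * a = a → a * e = a → ∃ b : M, e * b = b ∧ b * e = b ∧ a * b = e ∧ b * a = e := by
  classical
  -- the number of elements of `eMe`
  let N : M → ℕ := fun e => Nat.card {x : M // e * x = x ∧ x * e = x}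
  obtain ⟨e, he, hmin⟩ : ∃ e : M, e * e = e ∧ ∀ f : M, f * f = f → N e ≤ N f := by
    have hne : ∃ n, ∃ e : M, e * e = e ∧ N e = n := ⟨N 1, 1, by simp, rfl⟩
    obtain ⟨e, he, hN⟩ := Nat.find_spec hne
    exact ⟨e, he, fun f hf => hN ▸ Nat.find_min' hne ⟨f, hf, rfl⟩⟩
  refine ⟨e, he, fun a ha1 ha2 => ?_⟩
  obtain ⟨n, hn, hid⟩ := exists_pow_idem a
  set g := a ^ n with hg
  have hpe : ∀ k, 0 < k → e * a ^ k = a ^ k ∧ a ^ k * e = a ^ k := by
    intro k hk
    obtain ⟨k, rfl⟩ : ∃ j, k = j + 1 := ⟨k - 1, by omega⟩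
    constructor
    · rw [pow_succ', ← mul_assoc, ha1]
    · rw [pow_succ, mul_assoc, ha2]
  have hge := hpe n hn
  have hsub : ∀ x : M, g * x = x ∧ x * g = x → e * x = x ∧ x * e = x := by
    rintro x ⟨h1, h2⟩
    constructor
    · conv_lhs => rw [← h1]
      rw [← mul_assoc, hge.1, h1]
    · conv_lhs => rw [← h2]
      rw [mul_assoc, hge.2, h2]
  have hgeq : g = e := by
    have hcard := hmin g hid
    let ι : {x : M // g * x = x ∧ x * g = x} → {x : M // e * x = x ∧ x * e = x} :=
      fun x => ⟨x.1, hsub x.1 x.2⟩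
    have hinj : Function.Injective ι := by
      intro x y hxy
      apply Subtype.ext
      exact congrArg (fun z : {x : M // e * x = x ∧ x * e = x} => z.1) hxy
    have hbij : Function.Bijective ι := by
      rw [Nat.bijective_iff_injective_and_card]
      exact ⟨hinj, le_antisymm (Nat.card_le_card_of_injective ι hinj) hcard⟩
    obtain ⟨x, hx⟩ := hbij.2 ⟨e, he, he⟩
    have hx1 : x.1 = e := congrArg Subtype.val hx
    have h1 : g * e = e := by rw [← hx1]; exact x.2.1
    have h2 : g * e = g := hge.2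
    rw [← h2, h1]
  obtain ⟨k, rfl⟩ : ∃ k, n = k + 1 := ⟨n - 1, by omega⟩
  rcases Nat.eq_zero_or_pos k with rfl | hk
  · have hae : a = e := by simpa [hg] using hgeq
    exact ⟨e, he, he, by rw [hae, he], by rw [hae, he]⟩
  · refine ⟨a ^ k, (hpe k hk).1, (hpe k hk).2, ?_, ?_⟩
    · rw [← pow_succ', ← hg, hgeq]
    · rw [← pow_succ, ← hg, hgeq]

end idem

end MP53850c.FS
end

section
/-!
# Torus lemma

A set `W` in the torus `ℤ_m × ℤ_m` which meets, for every `c` and every choice of `L₁, …, L_d`, one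
of the rectangles `[L_i, L_i + i - 1] × [c - L_i, c - L_i + d - i]`, has at least
`m² / ⌊(d+1)²/4⌋` points.
-/
set_option autoImplicit false

namespace Pool.Agent.Lib.MP_53850c_co.FS

open Finset

/-- the number of points of an `i × (d+1-i)` rectangle on one antidiagonal -/
lemma card_antidiag_le {d i j : ℕ} (hid : i ≤ d) :
    ((range i ×ˢ range (d + 1 - i)).filter (fun x => x.1 + x.2 = j)).card
      ≤ min (j + 1) (d - j) := by
  classical
  refine le_min ?_ ?_
  · refine (card_le_card_of_injOn (t := range (j + 1)) (fun x => x.1) ?_ ?_).trans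
      (card_range _).le
    · intro x hx
      simp only [coe_filter, mem_product, mem_range, Set.mem_setOf_eq] at hx
      simp only [coe_range, Set.mem_Iio]
      omega
    · intro x hx y hy hxy
      simp only [coe_filter, mem_product, mem_range, Set.mem_setOf_eq] at hx hy
      simp only at hxy
      refine Prod.ext hxy ?_
      omega
  · refine (card_le_card_of_injOn (t := Ico (j - (d - i)) i) (fun x => x.1) ?_ ?_).trans ?_
    · intro x hx
      simp only [coe_filter, mem_product, mem_range, Set.mem_setOf_eq] at hx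
      simp only [coe_Ico, Set.mem_Ico]
      omega
    · intro x hx y hy hxy
      simp only [coe_filter, mem_product, mem_range, Set.mem_setOf_eq] at hx hy
      simp only at hxy
      refine Prod.ext hxy ?_
      omega
    · rw [Nat.card_Ico]
      omega

/-- `1 + 2 + … + 2 + 1` -/
lemma sum_min (d : ℕ) : ∑ j ∈ range d, min (j + 1) (d - j) = (d + 1) ^ 2 / 4 := by
  induction d using Nat.strong_induction_on with
  | _ d ih =>
    rcases d with _ | _ | d
    · simp
    · simp
    · have h := ih d (by omega)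
      rw [sum_range_succ, sum_range_succ']
      have h1 : ∑ k ∈ range d, min (k + 1 + 1) (d + 1 + 1 - (k + 1))
          = ∑ k ∈ range d, min (k + 1) (d - k) + d := by
        have : ∀ k ∈ range d, min (k + 1 + 1) (d + 1 + 1 - (k + 1)) = min (k + 1) (d - k) + 1 := by
          intro k hk
          rw [mem_range] at hk
          omega
        rw [sum_congr rfl this, sum_add_distrib]
        simp
      rw [h1, h]
      have h2 : (d + 1 + 1 + 1) ^ 2 = (d + 1) ^ 2 + (d + 2) * 4 := by ring
      rw [h2, Nat.add_mul_div_right _ _ (by norm_num)]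
      have h3 : min (0 + 1) (d + 1 + 1 - 0) = 1 := by omega
      have h4 : min (d + 1 + 1) (d + 1 + 1 - (d + 1)) = 1 := by omega
      rw [h3, h4]
      omega

section torus

variable {m : ℕ} [NeZero m]

/-- the points of `W` on the antidiagonal `s` -/
def wt (W : Finset (ZMod m × ZMod m)) (s : ZMod m) : ℕ := (W.filter (fun x => x.1 + x.2 = s)).card

lemma sum_wt (W : Finset (ZMod m × ZMod m)) (t : ZMod m) : ∑ c, wt W (c + t) = W.card := by
  classical
  have h1 : W.card = ∑ c : ZMod m, wt W c :=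
    card_eq_sum_card_fiberwise (f := fun x : ZMod m × ZMod m => x.1 + x.2)
      (t := (univ : Finset (ZMod m))) (fun x _ => mem_coe.mpr (mem_univ _))
  rw [h1]
  exact Equiv.sum_comp (Equiv.addRight t) (fun c => wt W c)

/-- one `c`: some rectangle size `i × (d+1-i)` meets `W` in all its positions -/
lemma one_c {d : ℕ} (W : Finset (ZMod m × ZMod m)) (c : ZMod m)
    (h : ∀ L : ℕ → ZMod m, ∃ i, 1 ≤ i ∧ i ≤ d ∧ ∃ p < i, ∃ q < d + 1 - i,
      (L i + (p : ZMod m), c - L i + (q : ZMod m)) ∈ W) :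
    m ≤ ∑ j ∈ range d, min (j + 1) (d - j) * wt W (c + (j : ZMod m)) := by
  classical
  obtain ⟨i, hi1, hid, hi⟩ : ∃ i, 1 ≤ i ∧ i ≤ d ∧ ∀ l : ZMod m, ∃ p < i, ∃ q < d + 1 - i,
      (l + (p : ZMod m), c - l + (q : ZMod m)) ∈ W := by
    by_contra hcon
    push Not at hcon
    have : ∀ i : ℕ, ∃ l : ZMod m, 1 ≤ i → i ≤ d → ∀ p < i, ∀ q < d + 1 - i,
        (l + (p : ZMod m), c - l + (q : ZMod m)) ∉ W := by
      intro i
      by_cases h1 : 1 ≤ i
      · by_cases h2 : i ≤ d
        · obtain ⟨l, hl⟩ := hcon i h1 h2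
          exact ⟨l, fun _ _ => hl⟩
        · exact ⟨0, fun _ h3 => absurd h3 h2⟩
      · exact ⟨0, fun h3 => absurd h3 h1⟩
    choose L hL using this
    obtain ⟨i, h1, h2, p, hp, q, hq, hW⟩ := h L
    exact hL i h1 h2 p hp q hq hW
  set R : Finset (ℕ × ℕ) := range i ×ˢ range (d + 1 - i) with hR
  have h1 : m ≤ ∑ l : ZMod m, (R.filter (fun x =>
      (l + (x.1 : ZMod m), c - l + (x.2 : ZMod m)) ∈ W)).card := by
    calc m = ∑ _l : ZMod m, 1 := by
          rw [sum_const, card_univ, ZMod.card, smul_eq_mul, mul_one]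
      _ ≤ _ := by
          refine sum_le_sum (fun l _ => ?_)
          obtain ⟨p, hp, q, hq, hW⟩ := hi l
          refine card_pos.mpr ⟨(p, q), ?_⟩
          rw [mem_filter, hR, mem_product, mem_range, mem_range]
          exact ⟨⟨hp, hq⟩, hW⟩
  have h2 : ∑ l : ZMod m, (R.filter (fun x =>
      (l + (x.1 : ZMod m), c - l + (x.2 : ZMod m)) ∈ W)).card
      = ∑ x ∈ R, (univ.filter (fun l : ZMod m =>
        (l + (x.1 : ZMod m), c - l + (x.2 : ZMod m)) ∈ W)).card :=
    sum_card_bipartiteAbove_eq_sum_card_bipartiteBelow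
      (fun (l : ZMod m) (x : ℕ × ℕ) => (l + (x.1 : ZMod m), c - l + (x.2 : ZMod m)) ∈ W)
  have h3 : ∀ x ∈ R, (univ.filter (fun l : ZMod m =>
        (l + (x.1 : ZMod m), c - l + (x.2 : ZMod m)) ∈ W)).card
      ≤ wt W (c + ((x.1 + x.2 : ℕ) : ZMod m)) := by
    intro x _
    refine card_le_card_of_injOn
      (fun l : ZMod m => (l + (x.1 : ZMod m), c - l + (x.2 : ZMod m))) ?_ ?_
    · intro l hl
      rw [mem_coe, mem_filter] at hl
      rw [mem_coe, mem_filter]
      refine ⟨hl.2, ?_⟩
      push_cast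
      ring
    · intro l _ l' _ hll
      exact add_right_cancel (Prod.mk.inj hll).1
  have h4 : ∑ x ∈ R, wt W (c + ((x.1 + x.2 : ℕ) : ZMod m))
      = ∑ j ∈ range d, (R.filter (fun x => x.1 + x.2 = j)).card * wt W (c + (j : ZMod m)) := by
    rw [← sum_fiberwise_of_maps_to (s := R) (t := range d) (g := fun x => x.1 + x.2)]
    · refine sum_congr rfl (fun j _ => ?_)
      rw [← smul_eq_mul, ← sum_const]
      refine sum_congr rfl (fun x hx => ?_)
      rw [(mem_filter.mp hx).2]
    · intro x hx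
      rw [hR, mem_product, mem_range, mem_range] at hx
      rw [mem_range]
      omega
  calc m ≤ ∑ x ∈ R, wt W (c + ((x.1 + x.2 : ℕ) : ZMod m)) := by
        rw [h2] at h1
        exact h1.trans (sum_le_sum h3)
    _ = _ := h4
    _ ≤ _ := sum_le_sum (fun j _ => Nat.mul_le_mul_right _ (card_antidiag_le hid))

/-- **Torus lemma.** -/
theorem torus {d : ℕ} (W : Finset (ZMod m × ZMod m))
    (h : ∀ (c : ZMod m) (L : ℕ → ZMod m), ∃ i, 1 ≤ i ∧ i ≤ d ∧ ∃ p < i, ∃ q < d + 1 - i,
      (L i + (p : ZMod m), c - L i + (q : ZMod m)) ∈ W) :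
    m ^ 2 ≤ W.card * ((d + 1) ^ 2 / 4) := by
  classical
  calc m ^ 2 = ∑ _c : ZMod m, m := by
        rw [sum_const, card_univ, ZMod.card, smul_eq_mul, sq]
    _ ≤ ∑ c : ZMod m, ∑ j ∈ range d, min (j + 1) (d - j) * wt W (c + (j : ZMod m)) :=
        sum_le_sum (fun c _ => one_c W c (h c))
    _ = ∑ j ∈ range d, min (j + 1) (d - j) * ∑ c : ZMod m, wt W (c + (j : ZMod m)) := by
        rw [sum_comm]
        exact sum_congr rfl (fun j _ => (mul_sum _ _ _).symm)
    _ = ∑ j ∈ range d, min (j + 1) (d - j) * W.card :=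
        sum_congr rfl (fun j _ => by rw [sum_wt])
    _ = W.card * ((d + 1) ^ 2 / 4) := by
        rw [← sum_mul, sum_min, mul_comm]

/-- The torus lemma for a predicate, with the stars numbered `0, …, d-1`. -/
theorem torus' {d : ℕ} (W : ZMod m → ZMod m → Prop) [∀ a b, Decidable (W a b)]
    (h : ∀ (c : ZMod m) (L : Fin d → ZMod m), ∃ i : Fin d, ∃ p ≤ i.val, ∃ q < d - i.val,
      W (L i + (p : ZMod m)) (c - L i + (q : ZMod m))) :
    m ^ 2 ≤ (univ.filter (fun x : ZMod m × ZMod m => W x.1 x.2)).card * ((d + 1) ^ 2 / 4) := by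
  refine torus (d := d) _ (fun c L => ?_)
  obtain ⟨i, p, hp, q, hq, hW⟩ := h c (fun i => L (i.val + 1))
  refine ⟨i.val + 1, by omega, i.isLt, p, by omega, q, by omega, ?_⟩
  rw [mem_filter]
  exact ⟨mem_univ _, hW⟩

end torus

end Pool.Agent.Lib.MP_53850c_co.FS
end
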