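import Pool.Agent.Lib.MP_7c0edd_co.H26.Edge

/-!
# Finite-state rules for sets of edges of the hypercube: definitions and specifications

Letters are pairs (label, bit); a star carries a label. `M` is a finite monoid, `α : Λ → Bool → M`.
-/

namespace Pool.Agent.Lib.MP_53850c_co.FS

open Finset

variable {M Λ : Type} [Monoid M]

/-- value of a word -/
def val (α : Λ → Bool → M) (w : List (Λ × Bool)) : M := (w.map fun a => α a.1 a.2).prod

/-- value of `g 0, a 0, g 1, a 1, ..., a (j-1), g j` -/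
def pre (g a : ℕ → M) : ℕ → M
  | 0 => g 0
  | j + 1 => pre g a j * a j * g (j + 1)

/-- value of `g j, a j, g (j+1), ..., a (j+k-1), g (j+k)` -/
def suf (g a : ℕ → M) : ℕ → ℕ → M
  | j, 0 => g j
  | j, k + 1 => g j * a j * suf g a (j + 1) k

/-- Each `d`-cube with `d` stars labelled `l` and gap words `w 0, ..., w d`, `w 0` of length at least
`n₀`, contains an edge of `F`. -/
def Cov (α : Λ → Bool → M) (F : M → Λ → M → Prop) (d n₀ : ℕ) : Prop :=
  ∀ (l : Λ) (w : ℕ → List (Λ × Bool)), n₀ ≤ (w 0).length → ∃ j < d, ∃ b : ℕ → Bool,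
    F (pre (fun i => val α (w i)) (fun i => α l (b i)) j) l
      (suf (fun i => val α (w i)) (fun i => α l (b i)) (j + 1) (d - 1 - j))

/-- `B d = ⌊(d+1)²/4⌋` -/
def B (d : ℕ) : ℕ := (d + 1) ^ 2 / 4

/-- TORUS. -/
def SpecTorus : Prop := ∀ (m d : ℕ) [NeZero m] (W : ZMod m → ZMod m → Prop),
  (∀ (T : ZMod m) (a : ℕ → ZMod m), ∃ j < d, ∃ s ≤ j, ∃ u, u + j + 1 ≤ d ∧
    W (a j + s) (T - a j + u)) →
  m ^ 2 ≤ B d * {p : ZMod m × ZMod m | W p.1 p.2}.ncard

/-- IDEM. -/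
def SpecIdem : Prop := ∀ (M : Type) [Monoid M] [Finite M] (R : Submonoid M),
  ∃ (m : ℕ) (e : M), 0 < m ∧ e ∈ R ∧ e * e = e ∧ ∀ x ∈ R, (e * x * e) ^ m = e

/-- The elements `t = e t e` such that `e` and `t` are values of words of one common length. -/
def HH (α : Λ → Bool → M) (e : M) : Set M :=
  {t | e * t * e = t ∧ ∃ v v' : List (Λ × Bool), v.length = v'.length ∧ val α v = e ∧ val α v' = t}

/-- `e` is an idempotent of the monoid of values `R` with `(e x e)^m = e` for `x` in `R`. -/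
def Good (α : Λ → Bool → M) (m : ℕ) (e : M) : Prop :=
  0 < m ∧ e * e = e ∧ (∃ v, val α v = e) ∧ ∀ w, (e * val α w * e) ^ m = e

/-- LENGTH. All elements of `HH` are values of words of one common length. -/
def SpecLength : Prop := ∀ (M Λ : Type) [Monoid M] [Finite M] [Finite Λ] (α : Λ → Bool → M) (m : ℕ)
  (e : M), Good α m e → ∃ L, 0 < L ∧ ∀ t ∈ HH α e, ∃ v : List (Λ × Bool), v.length = L ∧ val α v = t

/-- CORE. The fraction of `F` on the set of all `(k t y, l, y' t' k')`, `t, t' ∈ HH`. -/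
def SpecCore : Prop := ∀ (M Λ : Type) [Monoid M] [Finite M] (α : Λ → Bool → M)
  (F : M → Λ → M → Prop) (d n₀ m : ℕ) (e : M), Good α m e → Cov α F d n₀ →
  ∀ (l : Λ) (x y y' x' : List (Λ × Bool)),
    (HH α e).ncard ^ 2 ≤ B d * {p : M × M | p.1 ∈ HH α e ∧ p.2 ∈ HH α e ∧
      F (val α x * p.1 * val α y) l (val α y' * p.2 * val α x')}.ncard

/-- BLOCKS (from CORE and LENGTH). Pairs of long words. -/
def SpecBlocks : Prop := ∀ (M Λ : Type) [Monoid M] [Fintype M] [Fintype Λ] [Nonempty Λ]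
  (α : Λ → Bool → M) (F : M → Λ → M → Prop) (d n₀ : ℕ), Cov α F d n₀ →
  ∀ δ : ℝ, 0 < δ → ∃ P : ℕ, ∀ p q, P ≤ p → P ≤ q → ∀ l,
    (1 - δ) * ((2 * Fintype.card Λ : ℕ) : ℝ) ^ p * ((2 * Fintype.card Λ : ℕ) : ℝ) ^ q ≤
      (B d : ℝ) * (({z : (Fin p → Λ × Bool) × (Fin q → Λ × Bool) |
        F (val α (List.ofFn z.1)) l (val α (List.ofFn z.2))}.ncard : ℕ) : ℝ)

/-- The word over `{0, 1, *}` (with labels `c`) of the edge of direction `i` at the vertex `x`. -/
def edgeWord {n : ℕ} (c : Fin n → Λ) (x : Fin n → Bool) (i : Fin n) : List (Λ × Option Bool) :=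
  List.ofFn fun j => (c j, if j = i then none else some (x j))

/-- The edges of `Q_n` whose word is accepted by the automaton `A`. -/
def removed {σ : Type} (A : DFA (Λ × Option Bool) σ) {n : ℕ} (c : Fin n → Λ) :
    Set (Sym2 (Fin n → Bool)) :=
  {e | ∃ (x : Fin n → Bool) (i : Fin n), e = s(x, Function.update x i (!x i)) ∧
    edgeWord c x i ∈ A.accepts}

open Pool.Agent.Lib.MP_7c0edd_co.H21 MP7c0edd in
/-- END (from BLOCKS): the theorem. -/
def SpecEnd : Prop := ∀ (Λ σ : Type) [Fintype Λ] [Nonempty Λ] [Finite σ]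
  (A : DFA (Λ × Option Bool) σ) (d n₀ : ℕ), 1 ≤ d →
  (∀ n, n₀ ≤ n → ∀ c : Fin n → Λ, (cubeG d).Free ((cubeG n).deleteEdges (removed A c))) →
  ∀ ε : ℝ, 0 < ε → ∃ n₁ : ℕ, ∀ n, n₁ ≤ n →
    1 / (B d : ℝ) - ε ≤ (∑ c : Fin n → Λ, ((removed A c).ncard : ℝ)) /
      ((Fintype.card Λ : ℝ) ^ n * ((n : ℝ) * 2 ^ (n - 1)))

end Pool.Agent.Lib.MP_53850c_co.FS
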