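import Pool.Agent.Lib.MP_53850c_co.FS.Defs
import Pool.Agent.Lib.MP_53850c_co.FS.Torus

/-!
# Finite-state rules: idempotents whose local monoid is a group, and words of equal length
-/

namespace Pool.Agent.Lib.MP_53850c_co.FS

open Finset

lemma idem_pow {M : Type*} [Monoid M] {e : M} (he : e * e = e) : ∀ k : ℕ, 0 < k → e ^ k = e := by
  intro k hk
  induction k with
  | zero => omega
  | succ k ih =>
    rcases Nat.eq_zero_or_pos k with rfl | h
    · simp
    · rw [pow_succ, ih h, he]

/-- IDEM -/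
theorem specIdem : SpecIdem := by
  intro M _ _ R
  classical
  have : Fintype R := Fintype.ofFinite R
  obtain ⟨e, he, hgrp⟩ := MP53850c.FS.exists_group_idem (M := R)
  -- exponents
  have hx : ∀ x : R, ∃ n : ℕ, 0 < n ∧ (e * x * e) ^ n = e := by
    intro x
    set a := e * x * e with ha
    have ha1 : e * a = a := by rw [ha, ← mul_assoc, ← mul_assoc, he]
    have ha2 : a * e = a := by rw [ha, mul_assoc, he]
    obtain ⟨b, hb1, hb2, hab, hba⟩ := hgrp a ha1 ha2
    obtain ⟨n, hn, hid⟩ := MP53850c.FS.exists_pow_idem a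
    refine ⟨n, hn, ?_⟩
    have hcomm : ∀ k : ℕ, 0 < k → a ^ k * b ^ k = e := by
      intro k hk
      induction k with
      | zero => omega
      | succ k ih =>
        rcases Nat.eq_zero_or_pos k with rfl | h
        · simpa using hab
        · have h5 : e * b ^ k = b ^ k := by
            obtain ⟨k, rfl⟩ : ∃ j, k = j + 1 := ⟨k - 1, by omega⟩
            rw [pow_succ', ← mul_assoc, hb1]
          rw [pow_succ, pow_succ', mul_assoc, ← mul_assoc a b, hab, h5]
          exact ih h
    have h1 : a ^ n * e = a ^ n := by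
      obtain ⟨n, rfl⟩ : ∃ j, n = j + 1 := ⟨n - 1, by omega⟩
      rw [pow_succ, mul_assoc, ha2]
    calc a ^ n = a ^ n * e := h1.symm
      _ = a ^ n * (a ^ n * b ^ n) := by rw [hcomm n hn]
      _ = a ^ n * b ^ n := by rw [← mul_assoc, hid]
      _ = e := hcomm n hn
  choose N hN hNe using hx
  refine ⟨∏ x, N x, e, Finset.prod_pos fun x _ => hN x, e.2, by exact_mod_cast congrArg Subtype.val he,
    fun x hxR => ?_⟩
  have h2 : (e * ⟨x, hxR⟩ * e) ^ (∏ x, N x) = e := by
    obtain ⟨k, hk⟩ : N ⟨x, hxR⟩ ∣ ∏ x, N x := Finset.dvd_prod_of_mem N (Finset.mem_univ _)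
    have hk0 : 0 < k := by
      rcases Nat.eq_zero_or_pos k with rfl | h
      · have := Finset.prod_pos fun x (_ : x ∈ (univ : Finset R)) => hN x
        omega
      · exact h
    rw [hk, pow_mul, hNe, idem_pow he k hk0]
  have h3 := congrArg (Subtype.val : R → M) h2
  simpa using h3

lemma val_nil {M Λ : Type} [Monoid M] (α : Λ → Bool → M) : val α [] = 1 := rfl

lemma val_append {M Λ : Type} [Monoid M] (α : Λ → Bool → M) (u v : List (Λ × Bool)) :
    val α (u ++ v) = val α u * val α v := by
  simp [val]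

/-- the word `v` repeated `k` times -/
def rep {A : Type} (v : List A) : ℕ → List A
  | 0 => []
  | k + 1 => v ++ rep v k

lemma rep_length {A : Type} (v : List A) (k : ℕ) : (rep v k).length = k * v.length := by
  induction k with
  | zero => simp [rep]
  | succ k ih => simp only [rep, List.length_append, ih]; ring

lemma val_rep {M Λ : Type} [Monoid M] (α : Λ → Bool → M) (v : List (Λ × Bool)) (k : ℕ) :
    val α (rep v k) = val α v ^ k := by
  induction k with
  | zero => simp [rep, val]
  | succ k ih => rw [rep, val_append, ih, pow_succ']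

/-- LENGTH (for a nonempty set of labels) -/
theorem specLength' : ∀ (M Λ : Type) [Monoid M] [Finite M] [Finite Λ] [Nonempty Λ]
    (α : Λ → Bool → M) (m : ℕ) (e : M), Good α m e →
    ∃ L, 0 < L ∧ ∀ t ∈ HH α e, ∃ v : List (Λ × Bool), v.length = L ∧ val α v = t := by
  intro M Λ _ _ _ _ α m e hgood
  classical
  obtain ⟨hm, hee, ⟨ve, hve⟩, hpow⟩ := hgood
  have : Fintype M := Fintype.ofFinite M
  have hq : ∀ t : M, ∃ q : ℕ, 0 < q ∧ (t ∈ HH α e → ∃ v v' : List (Λ × Bool),
      v.length = q ∧ v'.length = q ∧ val α v = e ∧ val α v' = t) := by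
    intro t
    by_cases ht : t ∈ HH α e
    · obtain ⟨h1, v, v', hl, hv, hv'⟩ := ht
      rcases Nat.eq_zero_or_pos v.length with h0 | h0
      · have hvn : v = [] := List.length_eq_zero_iff.mp h0
        have hvn' : v' = [] := List.length_eq_zero_iff.mp (by omega)
        have he1 : e = 1 := by rw [← hv, hvn, val_nil]
        have ht1 : t = 1 := by rw [← hv', hvn', val_nil]
        obtain ⟨l⟩ := (inferInstance : Nonempty Λ)
        have h2 := hpow [(l, false)]
        rw [he1] at h2
        refine ⟨m, hm, fun _ => ⟨rep [(l, false)] m, rep [(l, false)] m, ?_, ?_, ?_, ?_⟩⟩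
        · rw [rep_length]; simp
        · rw [rep_length]; simp
        · rw [val_rep, he1]; simpa using h2
        · rw [val_rep, ht1]; simpa using h2
      · exact ⟨v.length, h0, fun _ => ⟨v, v', rfl, hl.symm, hv, hv'⟩⟩
    · exact ⟨1, one_pos, fun h => absurd h ht⟩
  choose q hq0 hqw using hq
  refine ⟨∏ t, q t, Finset.prod_pos fun t _ => hq0 t, fun t ht => ?_⟩
  obtain ⟨v, v', hlv, hlv', hv, hv'⟩ := hqw t ht
  obtain ⟨k, hk⟩ : q t ∣ ∏ t, q t := Finset.dvd_prod_of_mem q (Finset.mem_univ _)
  have hk0 : 0 < k := by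
    rcases Nat.eq_zero_or_pos k with rfl | h
    · have := Finset.prod_pos fun t (_ : t ∈ (univ : Finset M)) => hq0 t
      omega
    · exact h
  obtain ⟨k, rfl⟩ : ∃ j, k = j + 1 := ⟨k - 1, by omega⟩
  refine ⟨v' ++ rep v k, ?_, ?_⟩
  · rw [List.length_append, rep_length, hlv, hlv', hk]; ring
  · rw [val_append, val_rep, hv, hv']
    rcases Nat.eq_zero_or_pos k with rfl | h
    · simp
    · rw [idem_pow hee k h]
      have h1 := ht.1
      rw [← h1, mul_assoc, hee]

end Pool.Agent.Lib.MP_53850c_co.FS
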